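import Pool.Agent.V1157.BD.Defs

/-!
# Fields of definition of Tate classes: definitions
-/

open CategoryTheory AlgebraicGeometry

universe u v w x y

namespace Pool.Agent.V1157.FD

open Pool.Agent.H914 Pool.Agent.H914.VarClass Pool.Agent.H914.VarClass.Obj Pool.Agent.W492.BB
  Pool.Agent.V1157.BD

variable {k : Type u} [Field k] {𝒱 : VarClass k} {C : TheoryData.{u, v, 0} 𝒱 ℚ} {K : Type w}
  [Field K]

/-- Varieties over number fields and their Galois actions. Here `F` is a number field, `k` an
algebraic closure, `G` the Galois group of `k` over `F`, and `𝒱`, `C`, `H` are a class of varieties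
over `k`, their Chow groups and their cohomology. -/
structure FormData (G : Type x) [Group G] (H : WeilTheoryData.{u, v, w} C K) where
  /-- the pairs of a finite extension `L` of `F` in `k` and a variety `X` over `L` -/
  Form : Type y
  /-- the variety over `k` given by the variety `X` over `L` -/
  obj : Form → 𝒱.Obj
  /-- the Galois group of `k` over `L` -/
  grp : Form → Subgroup G
  /-- the conjugate of the morphism `f : X ⟶ Y` over `k` by the automorphism `g` in the Galois
  groups of `X` and `Y` -/
  conj : G → ∀ X Y : Form, (obj X ⟶ obj Y) → (obj X ⟶ obj Y)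
  /-- `act g X r t` is `g t`, for `g` in the Galois group of `X` and `t ∈ H^{2r}(X)(r)` -/
  act : G → ∀ X : Form, ℕ → H.A (obj X) → H.A (obj X)

variable {G : Type x} [Group G] {H : WeilTheoryData.{u, v, w} C K} (R : FormData.{u, v, w, x, y} G H)

/-- The laws of the Galois actions on `H^{2r}(X)(r)`. -/
structure IsGalois : Prop where
  fin : ∀ X : R.Form, (R.grp X).FiniteIndex
  deg : ∀ (X : R.Form) (r : ℕ), ∀ g ∈ R.grp X, ∀ t : H.A (R.obj X), H.Deg (2 * r) t →
    H.Deg (2 * r) (R.act g X r t)
  one : ∀ (X : R.Form) (r : ℕ) (t : H.A (R.obj X)), H.Deg (2 * r) t → R.act 1 X r t = t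
  mul : ∀ (X : R.Form) (r : ℕ), ∀ g ∈ R.grp X, ∀ h ∈ R.grp X, ∀ t : H.A (R.obj X),
    H.Deg (2 * r) t → R.act (g * h) X r t = R.act g X r (R.act h X r t)
  add : ∀ (X : R.Form) (r : ℕ), ∀ g ∈ R.grp X, ∀ t s : H.A (R.obj X), H.Deg (2 * r) t →
    H.Deg (2 * r) s → R.act g X r (t + s) = R.act g X r t + R.act g X r s
  smul : ∀ (X : R.Form) (r : ℕ), ∀ g ∈ R.grp X, ∀ (c : K) (t : H.A (R.obj X)), H.Deg (2 * r) t →
    R.act g X r (c • t) = c • R.act g X r t
  pull : ∀ (X Y : R.Form) (f : R.obj X ⟶ R.obj Y) (r : ℕ), ∀ g ∈ R.grp X, g ∈ R.grp Y →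
    ∀ t : H.A (R.obj Y), H.Deg (2 * r) t →
      R.act g X r (H.up f t) = H.up (R.conj g X Y f) (R.act g Y r t)
  push : ∀ (X Y : R.Form) (f : R.obj X ⟶ R.obj Y) (r s : ℕ), ∀ g ∈ R.grp X, g ∈ R.grp Y →
    ∀ t : H.A (R.obj X), H.Deg (2 * r) t → r + (R.obj Y).dim = s + (R.obj X).dim →
      R.act g Y s (H.down f t) = H.down (R.conj g X Y f) (R.act g X r t)

/-- The class `t ∈ H^{2r}(X)(r)` is a Tate class: it is fixed by a subgroup of finite index. -/
def IsTate (X : R.Form) (r : ℕ) (t : H.A (R.obj X)) : Prop :=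
  H.Deg (2 * r) t ∧ ∃ U : Subgroup G, U ≤ R.grp X ∧ U.FiniteIndex ∧ ∀ g ∈ U, R.act g X r t = t

/-- The class `t ∈ H^{2r}(X)(r)` is fixed by a subgroup of index at most `D` of `G`: it is a Tate
class defined over an extension of degree at most `D`. -/
def DefinedInDegree (X : R.Form) (r D : ℕ) (t : H.A (R.obj X)) : Prop :=
  H.Deg (2 * r) t ∧ ∃ U : Subgroup G, U.FiniteIndex ∧ U.index ≤ D ∧ ∀ g ∈ U, R.act g X r t = t

/-- The subrepresentation of `H^{2r}(X)(r)` generated by the elements `x l`. -/
def generated (X : R.Form) (r : ℕ) {D : ℕ} (x : Fin D → H.A (R.obj X)) :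
    Submodule K (H.A (R.obj X)) :=
  Submodule.span K {y | ∃ (g : G) (l : Fin D), y = R.act g X r (x l)}

variable (n : ℕ)

/-- The Tate conjecture in dimension `n` and codimension `r`, for the varieties over all finite
extensions of `F`: all Tate classes are linear combinations of classes of cycles over `k`. -/
def TateConj (r : ℕ) : Prop :=
  ∀ (X : R.Form) (t : H.A (R.obj X)), (R.obj X).dim = n → IsTate R X r t → IsAlg H r t

/-- For all varieties `X` over `F` of dimension `n`, the Tate classes in `H^{2r}(X)(r)` are sums of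
algebraic classes, of linear combinations of Tate classes defined over extensions of degree at most
`D`, and of elements of a subrepresentation which is generated by `D` elements. -/
def TateWithin (r D : ℕ) : Prop :=
  ∀ X : R.Form, R.grp X = ⊤ → (R.obj X).dim = n →
    ∃ x : Fin D → H.A (R.obj X), (∀ l, H.Deg (2 * r) (x l)) ∧
      ∀ t : H.A (R.obj X), IsTate R X r t → ∃ y ∈ generated R X r x,
        ∃ z ∈ Submodule.span K {s : H.A (R.obj X) | DefinedInDegree R X r D s},
          IsAlg H r (t - y - z)

/-- Let `S` be a variety over `L`, of dimension `n`, and `χ` a surjection of the Galois group of `k`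
over `L` onto `ℤ/N`. There are a variety `V` over `F` of dimension `n` and morphisms
`p i m : V ⟶ S` over `k`, `i ∈ ℤ/N`, `m < M`, of the same degree `κ ≠ 0`, such that the conjugate of
`p i m` by `g` is `p (i + χ g) m`, and a divisor class `a` on `S` such that for different `(i, m)`
and `(j, m')` the class `(p i m, p j m')_* [V]` on `S × S` is a rational multiple of
`(a × S + S × a) ^ n`. (For `n ≥ 1`: let `L'` be the cyclic extension of `L` given by `χ`, then `V`
is a complete intersection in the restriction of scalars of `S^M` from `L'` to `F`, and the `p i m`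
are the projections to the factors `S` belonging to the embeddings of `L'` into `k` over `L`.) -/
def HasTwistedPower {S : R.Form} {N : ℕ} (χ : R.grp S →* Multiplicative (ZMod N)) (M : ℕ) : Prop :=
  ∃ (V : R.Form) (p : ZMod N → ℕ → (R.obj V ⟶ R.obj S)) (a : C.A (R.obj S)) (c κ : ℚ),
    R.grp V = ⊤ ∧ (R.obj V).dim = n ∧ C.Deg 1 a ∧ κ ≠ 0 ∧
    (∀ (i : ZMod N), ∀ m < M, C.down (p i m) 1 = κ • (1 : C.A (R.obj S))) ∧
    (∀ (i j : ZMod N), ∀ m < M, ∀ m' < M, (i, m) ≠ (j, m') →
      C.down (Obj.lift (p i m) (p j m')) 1 =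
        c • (C.up (fst (R.obj S) (R.obj S)) a + C.up (snd (R.obj S) (R.obj S)) a) ^ n) ∧
    ∀ (g : R.grp S) (i : ZMod N), ∀ m < M,
      R.conj g V S (p i m) = p (i + Multiplicative.toAdd (χ g)) m

/-- For every variety over `L` of dimension `n` there are cyclic extensions of `L` of arbitrarily
large prime degree, with the complete intersections `V` above. (True for `n ≥ 1` and number fields:
there are such cyclotomic extensions.) -/
def HasTwistedPowers : Prop :=
  ∀ (S : R.Form) (B : ℕ), (R.obj S).dim = n →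
    ∃ (N : ℕ) (χ : R.grp S →* Multiplicative (ZMod N)), N.Prime ∧ B < N ∧
      Function.Surjective χ ∧ ∀ M, HasTwistedPower R n χ M

end Pool.Agent.V1157.FD
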