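import Pool.Agent.V1157.FD.Defs
import Pool.Agent.V1157.BD.Main
import Pool.Agent.V1157.SS.Main

/-!
# Fields of definition of Tate classes
-/

open CategoryTheory AlgebraicGeometry

universe u v w x y

namespace Pool.Agent.V1157.FD

open Pool.Agent.H914 Pool.Agent.H914.VarClass Pool.Agent.H914.VarClass.Obj Pool.Agent.W492.BB
  Pool.Agent.W550.Corr Pool.Agent.TH133 Pool.Agent.Y148.BB Pool.Agent.V1157.BD
open Pool.Agent.V1157.SS.Aux (pl ps coe_pl coe_ps algSub mem_algSub ps_pl_eq)

set_option linter.unusedSectionVars false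

section rep

variable {K : Type*} [Field K] {G : Type*} [Group G] {V W : Type*} [AddCommGroup V] [Module K V]
  [AddCommGroup W] [Module K W] {ρ : Representation K G V} {τ : Representation K G W}

/-- A family of equivariant maps bounds the number of generators from below. -/
lemma card_le [Module.Finite K W] {N : ℕ} {ι : Type*} [Fintype ι] (Φ : Fin N → V →ₗ[K] W)
    (hΦ : ∀ i g s, Φ i (ρ g s) = τ g (Φ i s)) (A : Submodule K V) (B : Submodule K W)
    (hA : ∀ i, ∀ s ∈ A, Φ i s ∈ B) (x : ι → V) (s : Fin N → V)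
    (hs : ∀ i, s i ∈ A ⊔ Submodule.span K {y | ∃ (g : G) (l : ι), y = ρ g (x l)}) {t : W}
    (ht : t ∉ B) {κ : K} (hκ : κ ≠ 0) (h1 : ∀ i, Φ i (s i) - κ • t ∈ B)
    (h2 : ∀ i j, i ≠ j → Φ i (s j) ∈ B) :
    N ≤ Fintype.card ι * Module.finrank K (W →ₗ[K] W) := by
  classical
  let Ψ : (ι → (W →ₗ[K] W)) →ₗ[K] (Fin N → W ⧸ B) :=
    LinearMap.pi fun i => B.mkQ.comp (∑ l, (LinearMap.applyₗ (Φ i (x l))).comp (LinearMap.proj l))
  have hΨ : ∀ e i, Ψ e i = B.mkQ (∑ l, e l (Φ i (x l))) := by
    intro e i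
    simp [Ψ]
  let L : V →ₗ[K] (Fin N → W ⧸ B) := LinearMap.pi fun i => B.mkQ.comp (Φ i)
  have hr : A ⊔ Submodule.span K {y | ∃ (g : G) (l : ι), y = ρ g (x l)} ≤
      (LinearMap.range Ψ).comap L := by
    refine sup_le ?_ (Submodule.span_le.2 ?_)
    · intro a ha
      have : L a = 0 := by
        funext i
        exact (Submodule.Quotient.mk_eq_zero B).2 (hA i a ha)
      rw [Submodule.mem_comap, this]
      exact Submodule.zero_mem _
    · rintro _ ⟨g, l, rfl⟩
      refine ⟨Pi.single l (τ g), ?_⟩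
      funext i
      rw [hΨ]
      change _ = B.mkQ (Φ i (ρ g (x l)))
      rw [hΦ, Finset.sum_eq_single l]
      · rw [Pi.single_eq_same]
      · intro m _ hm
        rw [Pi.single_eq_of_ne hm, LinearMap.zero_apply]
      · intro h
        exact absurd (Finset.mem_univ l) h
  choose e he using fun j => hr (hs j)
  have hval : ∀ i j, Ψ (e j) i = B.mkQ (Φ i (s j)) := fun i j => congrFun (he j) i
  have hli : LinearIndependent K e := by
    apply LinearIndependent.of_comp Ψ
    rw [Fintype.linearIndependent_iff]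
    intro c hc j
    have h3 := congrFun hc j
    rw [Finset.sum_apply, Finset.sum_eq_single j] at h3
    · rw [Function.comp_apply, Pi.smul_apply, hval, Pi.zero_apply] at h3
      have h5 : B.mkQ (Φ j (s j)) = κ • B.mkQ t := by
        rw [← sub_eq_zero, ← map_smul, ← map_sub]
        exact (Submodule.Quotient.mk_eq_zero B).2 (h1 j)
      rw [h5, smul_smul] at h3
      rcases smul_eq_zero.1 h3 with h4 | h4
      · exact (mul_eq_zero.1 h4).resolve_right hκ
      · exact absurd ((Submodule.Quotient.mk_eq_zero B).1 h4) ht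
    · intro i _ hi
      rw [Function.comp_apply, Pi.smul_apply, hval]
      have : B.mkQ (Φ j (s i)) = 0 := (Submodule.Quotient.mk_eq_zero B).2 (h2 j i hi.symm)
      rw [this, smul_zero]
    · intro h3
      exact absurd (Finset.mem_univ j) h3
  have h3 := hli.fintype_card_le_finrank
  rwa [Fintype.card_fin, Module.finrank_pi_fintype, Finset.sum_const, Finset.card_univ,
    smul_eq_mul] at h3

/-- The induced representation on the functions on `ℤ/N`. -/
def twist (τ : Representation K G W) {N : ℕ} (χ : G →* Multiplicative (ZMod N)) :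
    Representation K G (ZMod N → W) where
  toFun g :=
    { toFun := fun f c => τ g (f (c - Multiplicative.toAdd (χ g)))
      map_add' := fun f f' => by
        funext c
        exact map_add _ _ _
      map_smul' := fun a f => by
        funext c
        exact map_smul _ _ _ }
  map_one' := by
    apply LinearMap.ext
    intro f
    funext c
    change τ 1 (f (c - Multiplicative.toAdd (χ 1))) = f c
    rw [map_one, map_one, toAdd_one, sub_zero]
    rfl
  map_mul' g h := by
    apply LinearMap.ext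
    intro f
    funext c
    change τ (g * h) (f (c - Multiplicative.toAdd (χ (g * h)))) =
      τ g (τ h (f (c - Multiplicative.toAdd (χ g) - Multiplicative.toAdd (χ h))))
    rw [map_mul, map_mul, toAdd_mul, sub_sub]
    rfl

/-- Subgroups of small index contain elements which are mapped to the generator of `ℤ/N`. -/
lemma exists_one {N : ℕ} (hN : N.Prime) {χ : G →* Multiplicative (ZMod N)}
    (hχ : Function.Surjective χ) {A : Subgroup G} (hA : A.index ≠ 0) (hAN : A.index < N) :
    ∃ g ∈ A, χ g = Multiplicative.ofAdd 1 := by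
  have hN' : Fact N.Prime := ⟨hN⟩
  have hcard : Nat.card (Multiplicative (ZMod N)) = N := by
    rw [Nat.card_congr Multiplicative.toAdd, Nat.card_zmod]
  have hcp : Fact (Nat.card (Multiplicative (ZMod N))).Prime := ⟨by rw [hcard]; exact hN⟩
  rcases (A.map χ).eq_bot_or_eq_top_of_prime_card with h | h
  · exfalso
    have h1 : A ≤ χ.ker := by rwa [← Subgroup.map_eq_bot_iff]
    have h2 : χ.ker.index ∣ A.index := Subgroup.index_dvd_of_le h1
    have h3 : χ.ker.index = N := by
      rw [Subgroup.index_ker, MonoidHom.range_eq_top.2 hχ]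
      rw [Nat.card_congr (Subgroup.topEquiv.toEquiv)]
      exact hcard
    rw [h3] at h2
    exact absurd (Nat.le_of_dvd (Nat.pos_of_ne_zero hA) h2) (by omega)
  · have h1 : Multiplicative.ofAdd (1 : ZMod N) ∈ A.map χ := by
      rw [h]
      exact Subgroup.mem_top _
    obtain ⟨g, hg, hg2⟩ := h1
    exact ⟨g, hg, hg2⟩

end rep

section main

variable {k : Type u} [Field k] {𝒱 : VarClass k} {C : TheoryData.{u, v, 0} 𝒱 ℚ}
  [hC : IsChowProj C] {K : Type w} [Field K] {H : WeilTheoryData.{u, v, w} C K}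
  [hH : IsWeilProj H] {n r : ℕ} {G : Type x} [Group G] {R : FormData.{u, v, w, x, y} G H}

/-- The action of a subgroup of the Galois group of `X`. -/
def rep (hR : IsGalois R) (X : R.Form) (r : ℕ) {U : Subgroup G} (hU : U ≤ R.grp X) :
    Representation K U (H.gr (R.obj X) (2 * r)) where
  toFun g :=
    { toFun := fun t => ⟨R.act g X r t, hR.deg X r g (hU g.2) t t.2⟩
      map_add' := fun t s => Subtype.ext (hR.add X r g (hU g.2) t s t.2 s.2)
      map_smul' := fun c t => Subtype.ext (hR.smul X r g (hU g.2) c t t.2) }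
  map_one' := LinearMap.ext fun t => Subtype.ext (hR.one X r t t.2)
  map_mul' g h := LinearMap.ext fun t => Subtype.ext (hR.mul X r g (hU g.2) h (hU h.2) t t.2)

lemma coe_rep (hR : IsGalois R) {X : R.Form} {U : Subgroup G} (hU : U ≤ R.grp X) (g : U)
    (t : H.gr (R.obj X) (2 * r)) : (rep hR X r hU g t : H.A (R.obj X)) = R.act g X r t := rfl

/-- All Tate classes are fixed by one subgroup of finite index. -/
lemma exists_fixing (hR : IsGalois R) (X : R.Form) [hfin : Module.Finite K (H.A (R.obj X))] :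
    ∃ U : Subgroup G, U ≤ R.grp X ∧ U.FiniteIndex ∧
      ∀ t, IsTate R X r t → ∀ g ∈ U, R.act g X r t = t := by
  let T : Submodule K (H.A (R.obj X)) :=
    { carrier := {t | IsTate R X r t}
      add_mem' := by
        rintro t s ⟨ht, U, hU, hUf, hU'⟩ ⟨hs, U2, hU2, hUf2, hU2'⟩
        refine ⟨Submodule.add_mem _ ht hs, U ⊓ U2, inf_le_left.trans hU, inferInstance, ?_⟩
        intro g hg
        rw [hR.add X r g (hU hg.1) t s ht hs, hU' g hg.1, hU2' g hg.2]
      zero_mem' := by
        refine ⟨Submodule.zero_mem _, R.grp X, le_rfl, hR.fin X, ?_⟩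
        intro g hg
        have := hR.smul X r g hg 0 0 (Submodule.zero_mem _)
        rwa [zero_smul, zero_smul] at this
      smul_mem' := by
        rintro c t ⟨ht, U, hU, hUf, hU'⟩
        refine ⟨Submodule.smul_mem _ c ht, U, hU, hUf, ?_⟩
        intro g hg
        rw [hR.smul X r g (hU hg) c t ht, hU' g hg] }
  have hT : ∀ t, t ∈ T ↔ IsTate R X r t := fun t => Iff.rfl
  obtain ⟨s, hs⟩ : T.FG := IsNoetherian.noetherian T
  have hsT : ∀ t ∈ s, IsTate R X r t := fun t ht => by
    rw [← hT, ← hs]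
    exact Submodule.subset_span ht
  choose! U hU hUf hU' using fun t ht => (hsT t ht).2
  have hfi := hR.fin X
  refine ⟨R.grp X ⊓ ⨅ t : s, U t, inf_le_left, ?_, ?_⟩
  · have : (⨅ t : s, U t).FiniteIndex := by
      apply Subgroup.finiteIndex_iInf
      intro t
      exact hUf t t.2
    infer_instance
  · intro t ht g hg
    have h1 : ∀ t ∈ Submodule.span K (s : Set (H.A (R.obj X))),
        H.Deg (2 * r) t ∧ R.act g X r t = t := by
      intro t ht
      induction ht using Submodule.span_induction with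
      | mem t ht => exact ⟨(hsT t ht).1, hU' t ht g (Subgroup.mem_iInf.1 hg.2 ⟨t, ht⟩)⟩
      | zero =>
        refine ⟨Submodule.zero_mem _, ?_⟩
        have := hR.smul X r g hg.1 0 0 (Submodule.zero_mem _)
        rwa [zero_smul, zero_smul] at this
      | add a b _ _ iha ihb =>
        refine ⟨Submodule.add_mem _ iha.1 ihb.1, ?_⟩
        rw [hR.add X r g hg.1 a b iha.1 ihb.1, iha.2, ihb.2]
      | smul c a _ iha =>
        refine ⟨Submodule.smul_mem _ c iha.1, ?_⟩
        rw [hR.smul X r g hg.1 c a iha.1, iha.2]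
    exact (h1 t (by rw [hs]; exact ht)).2

/-- The data of `HasTwistedPower`. -/
structure TP (R : FormData.{u, v, w, x, y} G H) (n : ℕ) {S : R.Form} {N : ℕ}
    (χ : R.grp S →* Multiplicative (ZMod N)) (M : ℕ) (V : R.Form)
    (p : ZMod N → ℕ → (R.obj V ⟶ R.obj S)) (a : C.A (R.obj S)) (c κ : ℚ) : Prop where
  dimS : (R.obj S).dim = n
  top : R.grp V = ⊤
  dimV : (R.obj V).dim = n
  ha : C.Deg 1 a
  hκ : κ ≠ 0
  pp : ∀ (i : ZMod N), ∀ m < M, C.down (p i m) 1 = κ • (1 : C.A (R.obj S))
  pq : ∀ (i j : ZMod N), ∀ m < M, ∀ m' < M, (i, m) ≠ (j, m') →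
      C.down (Obj.lift (p i m) (p j m')) 1 =
        c • (C.up (fst (R.obj S) (R.obj S)) a + C.up (snd (R.obj S) (R.obj S)) a) ^ n
  conj : ∀ (g : R.grp S) (i : ZMod N), ∀ m < M,
      R.conj g V S (p i m) = p (i + Multiplicative.toAdd (χ g)) m

section power

variable {S V : R.Form} {N M : ℕ} {χ : R.grp S →* Multiplicative (ZMod N)}
  {p : ZMod N → ℕ → (R.obj V ⟶ R.obj S)} {a : C.A (R.obj S)} {c κ : ℚ}

lemma TP.pw (h : TP R n χ M V p a c κ) {i j : ZMod N} {m m' : ℕ} (hm : m < M) (hm' : m' < M)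
    (hne : (i, m) ≠ (j, m')) :
    Pw C n 2 (fun l => if l = 0 then p i m else p j m') a c κ where
  dimS := h.dimS
  dimV := h.dimV
  ha := h.ha
  hκ := h.hκ
  pp l hl := by
    by_cases h0 : l = 0
    · rw [if_pos h0]
      exact h.pp i m hm
    · rw [if_neg h0]
      exact h.pp j m' hm'
  pq l hl l' hl' hll := by
    by_cases h0 : l = 0
    · rw [if_pos h0, if_neg (by omega)]
      exact h.pq i j m hm m' hm' hne
    · rw [if_neg h0, if_pos (by omega)]
      exact h.pq j i m' hm' m hm hne.symm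

lemma TP.push_pull_ne (h : TP R n χ M V p a c κ) {i j : ZMod N} {m m' : ℕ} (hm : m < M)
    (hm' : m' < M) (hne : (i, m) ≠ (j, m')) (t : H.gr (R.obj S) (2 * r)) :
    ps H h.dimV h.dimS (p j m') r (pl H (p i m) r t) ∈ algSub H (R.obj S) r := by
  rw [mem_algSub, coe_ps, coe_pl]
  have := (h.pw hm hm' hne).push_pull_ne (i := 0) (j := 1) (by omega) (by omega) (by omega) t.2
  exact this

lemma TP.push_pull [CharZero K] (h : TP R n χ M V p a c κ) (i : ZMod N) {m : ℕ} (hm : m < M)
    (t : H.gr (R.obj S) (2 * r)) :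
    ps H h.dimV h.dimS (p i m) r (pl H (p i m) r t) = (κ : K) • t := by
  have h1 : Pw C n 1 (fun _ => p i m) a c κ :=
    { dimS := h.dimS, dimV := h.dimV, ha := h.ha, hκ := h.hκ
      pp := fun l _ => h.pp i m hm
      pq := fun l hl l' hl' hne => absurd (by omega) hne }
  exact ps_pl_eq h1 (i := 0) (by omega) t

lemma push_deg' (h : TP R n χ M V p a c κ) {i : ZMod N} {m : ℕ} {t : H.A (R.obj V)}
    (ht : H.Deg (2 * r) t) : H.Deg (2 * r) (H.down (p i m) t) :=
  SS.Aux.push_deg h.dimV h.dimS (p i m) ht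

variable (hR : IsGalois R)
include hR

lemma TP.act_down (h : TP R n χ M V p a c κ) (g : R.grp S) (i : ZMod N) {m : ℕ} (hm : m < M)
    {t : H.A (R.obj V)} (ht : H.Deg (2 * r) t) :
    R.act g S r (H.down (p i m) t) =
      H.down (p (i + Multiplicative.toAdd (χ g)) m) (R.act g V r t) := by
  rw [hR.push V S (p i m) r r g (by rw [h.top]; exact Subgroup.mem_top _) g.2 t ht
    (by rw [h.dimS, h.dimV]), h.conj g i m hm]

lemma TP.act_up (h : TP R n χ M V p a c κ) (g : R.grp S) (i : ZMod N) {m : ℕ} (hm : m < M)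
    {t : H.A (R.obj S)} (ht : H.Deg (2 * r) t) :
    R.act g V r (H.up (p i m) t) =
      H.up (p (i + Multiplicative.toAdd (χ g)) m) (R.act g S r t) := by
  rw [hR.pull V S (p i m) r g (by rw [h.top]; exact Subgroup.mem_top _) g.2 t ht,
    h.conj g i m hm]

/-- Push-forwards of classes on `V` which are fixed by a subgroup of finite index are Tate
classes. -/
lemma TP.isTate_down (h : TP R n χ M V p a c κ) [NeZero N] (i : ZMod N) {m : ℕ} (hm : m < M)
    {t : H.A (R.obj V)} (ht : H.Deg (2 * r) t) {U : Subgroup G} (hU : U.FiniteIndex)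
    (hU' : ∀ g ∈ U, R.act g V r t = t) : IsTate R S r (H.down (p i m) t) := by
  have hfi := hR.fin S
  have hker : χ.ker.FiniteIndex := by
    refine ⟨?_⟩
    rw [Subgroup.index_ker]
    have : Finite (Multiplicative (ZMod N)) := inferInstanceAs (Finite (ZMod N))
    exact Nat.card_pos.ne'
  have hsub : (U.subgroupOf (R.grp S)).FiniteIndex := inferInstance
  refine ⟨push_deg' h ht, ((U.subgroupOf (R.grp S)) ⊓ χ.ker).map (R.grp S).subtype, ?_, ?_, ?_⟩
  · rintro _ ⟨g, -, rfl⟩
    exact g.2
  · refine ⟨?_⟩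
    rw [Subgroup.index_map_subtype]
    have : ((U.subgroupOf (R.grp S)) ⊓ χ.ker).FiniteIndex := inferInstance
    exact mul_ne_zero this.index_ne_zero hfi.index_ne_zero
  · rintro _ ⟨g, hg, rfl⟩
    change R.act g S r _ = _
    have h1 : χ g = 1 := hg.2
    rw [h.act_down hR g i hm ht, h1, toAdd_one, add_zero, hU' g hg.1]

/-- Pull-backs of Tate classes to `V` are Tate classes. -/
lemma TP.isTate_up (h : TP R n χ M V p a c κ) [NeZero N] (i : ZMod N) {m : ℕ} (hm : m < M)
    {t : H.A (R.obj S)} (ht : IsTate R S r t) : IsTate R V r (H.up (p i m) t) := by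
  obtain ⟨ht, U, hUS, hU, hU'⟩ := ht
  have hfi := hR.fin S
  have hker : χ.ker.FiniteIndex := by
    refine ⟨?_⟩
    rw [Subgroup.index_ker]
    have : Finite (Multiplicative (ZMod N)) := inferInstanceAs (Finite (ZMod N))
    exact Nat.card_pos.ne'
  have hsub : (U.subgroupOf (R.grp S)).FiniteIndex := inferInstance
  refine ⟨H.pull_mem _ ht, ((U.subgroupOf (R.grp S)) ⊓ χ.ker).map (R.grp S).subtype, ?_, ?_, ?_⟩
  · rw [h.top]
    exact le_top
  · refine ⟨?_⟩
    rw [Subgroup.index_map_subtype]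
    have : ((U.subgroupOf (R.grp S)) ⊓ χ.ker).FiniteIndex := inferInstance
    exact mul_ne_zero this.index_ne_zero hfi.index_ne_zero
  · rintro _ ⟨g, hg, rfl⟩
    change R.act g V r _ = _
    have h1 : χ g = 1 := hg.2
    rw [h.act_up hR g i hm ht, h1, toAdd_one, add_zero, hU' g hg.1]

end power

/-- **If the Tate classes on varieties over `F` are algebraic up to classes defined over extensions
of bounded degree and subrepresentations with a bounded number of generators, then all Tate classes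
on varieties over finite extensions of `F` are algebraic.** -/
theorem algebraic_of_within [CharZero K] (hR : IsGalois R)
    (hfin : ∀ X : 𝒱.Obj, Module.Finite K (H.A X)) (hP : HasTwistedPowers R n) {D : ℕ}
    (hD : TateWithin R n r D) : TateConj R n r := by
  classical
  intro S t hS ht
  have hfS := hfin (R.obj S)
  obtain ⟨U₁, hU₁S, hU₁f, hU₁⟩ := exists_fixing (r := r) hR S
  have hfi := hR.fin S
  have hsub : (U₁.subgroupOf (R.grp S)).FiniteIndex := inferInstance
  set I := (U₁.subgroupOf (R.grp S)).index with hI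
  have hI0 : I ≠ 0 := hsub.index_ne_zero
  obtain ⟨N, χ, hN, hBN, hχ, hpow⟩ := hP S (D * I) hS
  have hNN : NeZero N := ⟨hN.ne_zero⟩
  have hN1 : Fact (1 < N) := ⟨hN.one_lt⟩
  by_contra hne
  let ι := (G ⧸ R.grp S) × Fin D
  have hfq : Finite (G ⧸ R.grp S) := inferInstance
  have hfqt : Fintype (G ⧸ R.grp S) := Fintype.ofFinite _
  let W := ZMod N → H.gr (R.obj S) (2 * r)
  have hfr : Module.Finite K (H.gr (R.obj S) (2 * r)) := inferInstance
  have hfW : Module.Finite K W := inferInstance
  set M := Fintype.card ι * Module.finrank K (W →ₗ[K] W) + 1 with hM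
  obtain ⟨V, p, a, c, κ, e1, e2, e3, e4, e5, e6, e7⟩ := hpow M
  have h : TP R n χ M V p a c κ := ⟨hS, e1, e2, e3, e4, e5, e6, e7⟩
  obtain ⟨x, hx, hx'⟩ := hD V e1 e2
  have hVU : R.grp S ≤ R.grp V := by rw [e1]; exact le_top
  -- the equivariant maps
  let Φ : Fin M → H.gr (R.obj V) (2 * r) →ₗ[K] W := fun m =>
    LinearMap.pi fun i => ps H h.dimV h.dimS (p i m) r
  let δ : W →ₗ[K] H.gr (R.obj S) (2 * r) :=
    (LinearMap.proj (R := K) (φ := fun _ : ZMod N => H.gr (R.obj S) (2 * r)) 0) -
      (LinearMap.proj (R := K) (φ := fun _ : ZMod N => H.gr (R.obj S) (2 * r)) 1)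
  let A : Submodule K (H.gr (R.obj V) (2 * r)) := algSub H (R.obj V) r ⊔
    (Submodule.span K {s : H.A (R.obj V) | DefinedInDegree R V r D s}).comap
      (H.gr (R.obj V) (2 * r)).subtype
  have hΦ : ∀ (m : Fin M) (g : R.grp S) (s : H.gr (R.obj V) (2 * r)),
      Φ m (rep hR V r hVU g s) = twist (rep hR S r le_rfl) χ g (Φ m s) := by
    intro m g s
    funext i
    apply Subtype.ext
    change H.push (p i m) (R.act g V r s) =
      R.act g S r (H.push (p (i - Multiplicative.toAdd (χ g)) m) s)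
    have h1 := h.act_down hR g (i - Multiplicative.toAdd (χ g)) m.2 s.2
    rw [sub_add_cancel] at h1
    exact h1.symm
  -- classes defined in degree at most `D`
  have hdef : ∀ (m : Fin M) (s : H.A (R.obj V)), DefinedInDegree R V r D s →
      H.push (p 0 m) s = H.push (p 1 m) s := by
    rintro m s ⟨hs, U₂, hU₂f, hU₂D, hU₂⟩
    have hsub2 : (U₂.subgroupOf (R.grp S)).FiniteIndex := inferInstance
    have h3 : (U₂.subgroupOf (R.grp S)).index ≤ D := by
      refine le_trans ?_ hU₂D
      have h6 := Subgroup.relIndex_le_of_le_right (H := U₂) (K := R.grp S) le_top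
        (by rw [Subgroup.relIndex_top_right]; exact hU₂f.index_ne_zero)
      rwa [Subgroup.relIndex_top_right] at h6
    have h4 : (U₂.subgroupOf (R.grp S) ⊓ U₁.subgroupOf (R.grp S)).index ≤ D * I :=
      Subgroup.index_inf_le.trans (Nat.mul_le_mul_right _ h3)
    obtain ⟨g, hg, hg1⟩ := exists_one hN hχ (A := U₂.subgroupOf (R.grp S) ⊓ U₁.subgroupOf (R.grp S))
      (Subgroup.FiniteIndex.index_ne_zero) (lt_of_le_of_lt h4 hBN)
    have h5 := h.act_down hR g 0 m.2 hs
    rw [hg1, hU₂ g hg.1, toAdd_ofAdd, zero_add] at h5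
    have h6 := hU₁ _ (h.isTate_down hR 0 m.2 hs hU₂f hU₂) g hg.2
    exact h6.symm.trans h5
  have hA : ∀ m, ∀ s ∈ A, Φ m s ∈ (algSub H (R.obj S) r).comap δ := by
    intro m s hs
    obtain ⟨s₁, hs₁, s₂, hs₂, rfl⟩ := Submodule.mem_sup.1 hs
    rw [map_add]
    apply Submodule.add_mem
    · change ps H h.dimV h.dimS (p 0 m) r s₁ - ps H h.dimV h.dimS (p 1 m) r s₁ ∈
        algSub H (R.obj S) r
      apply Submodule.sub_mem
      · rw [mem_algSub, coe_ps]
        exact alg_push h.dimV h.dimS _ hs₁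
      · rw [mem_algSub, coe_ps]
        exact alg_push h.dimV h.dimS _ hs₁
    · change ps H h.dimV h.dimS (p 0 m) r s₂ - ps H h.dimV h.dimS (p 1 m) r s₂ ∈
        algSub H (R.obj S) r
      have h1 : H.push (p 0 m) (s₂ : H.A (R.obj V)) = H.push (p 1 m) (s₂ : H.A (R.obj V)) := by
        have h2 : ∀ s ∈ Submodule.span K {s : H.A (R.obj V) | DefinedInDegree R V r D s},
            H.push (p 0 m) s = H.push (p 1 m) s := by
          intro s hs
          induction hs using Submodule.span_induction with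
          | mem s hs => exact hdef m s hs
          | zero => rw [map_zero, map_zero]
          | add a b _ _ iha ihb => rw [map_add, map_add, iha, ihb]
          | smul c a _ iha => rw [map_smul, map_smul, iha]
        exact h2 _ hs₂
      have h2 : ps H h.dimV h.dimS (p 0 m) r s₂ = ps H h.dimV h.dimS (p 1 m) r s₂ :=
        Subtype.ext h1
      rw [h2, sub_self]
      exact Submodule.zero_mem _
  let x' : ι → H.gr (R.obj V) (2 * r) := fun q =>
    ⟨R.act (Quotient.out q.1)⁻¹ V r (x q.2), hR.deg V r _ (by rw [e1]; exact Subgroup.mem_top _) _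
      (hx q.2)⟩
  have hgen : ∀ s : H.gr (R.obj V) (2 * r), (s : H.A (R.obj V)) ∈ generated R V r x →
      s ∈ Submodule.span K {y | ∃ (g : R.grp S) (l : ι), y = rep hR V r hVU g (x' l)} := by
    intro s hs
    have h1 : generated R V r x ≤ (Submodule.span K
        {y | ∃ (g : R.grp S) (l : ι), y = rep hR V r hVU g (x' l)}).map
          (H.gr (R.obj V) (2 * r)).subtype := by
      rw [generated, Submodule.span_le]
      rintro _ ⟨g, l, rfl⟩
      have h2 : (QuotientGroup.mk (Quotient.out (QuotientGroup.mk g⁻¹ : G ⧸ R.grp S)) : G ⧸ R.grp S) =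
          QuotientGroup.mk g⁻¹ := Quotient.out_eq' _
      set o := Quotient.out (QuotientGroup.mk g⁻¹ : G ⧸ R.grp S) with ho
      have h3 : o⁻¹ * g⁻¹ ∈ R.grp S := QuotientGroup.eq.1 h2
      have h4 : g * o ∈ R.grp S := by
        have := (R.grp S).inv_mem h3
        rwa [mul_inv_rev, inv_inv, inv_inv] at this
      refine ⟨rep hR V r hVU ⟨g * o, h4⟩ (x' (QuotientGroup.mk g⁻¹, l)),
        Submodule.subset_span ⟨⟨g * o, h4⟩, (QuotientGroup.mk g⁻¹, l), rfl⟩, ?_⟩
      change R.act (g * o) V r (R.act o⁻¹ V r (x l)) = R.act g V r (x l)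
      have hmem : ∀ g : G, g ∈ R.grp V := fun g => by rw [e1]; exact Subgroup.mem_top _
      rw [← hR.mul V r _ (hmem _) _ (hmem _) _ (hx l), mul_assoc, mul_inv_cancel, mul_one]
    obtain ⟨s', hs', he⟩ := h1 hs
    have : s' = s := Subtype.ext he
    rwa [← this]
  have key := card_le (ρ := rep hR V r hVU) (τ := twist (rep hR S r le_rfl) χ) Φ hΦ A
    ((algSub H (R.obj S) r).comap δ) hA x' (fun m => pl H (p 0 m) r ⟨t, ht.1⟩)
    (fun m => by
      obtain ⟨y, hy, z, hz, hyz⟩ := hx' _ (h.isTate_up hR 0 m.2 ht)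
      have hy0 : y ∈ H.gr (R.obj V) (2 * r) := by
        refine (Submodule.span_le.2 ?_) hy
        rintro _ ⟨g, l, rfl⟩
        exact hR.deg V r g (by rw [e1]; exact Subgroup.mem_top _) _ (hx l)
      have hz0 : z ∈ H.gr (R.obj V) (2 * r) := by
        refine (Submodule.span_le.2 ?_) hz
        rintro s hs
        exact hs.1
      have h1 : pl H (p 0 m) r ⟨t, ht.1⟩ = ((pl H (p 0 m) r ⟨t, ht.1⟩ - ⟨y, hy0⟩ - ⟨z, hz0⟩) +
          ⟨z, hz0⟩) + ⟨y, hy0⟩ := by abel
      rw [h1]
      refine Submodule.add_mem_sup (Submodule.add_mem_sup ?_ hz) (hgen _ hy)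
      exact hyz)
    (t := Pi.single 0 ⟨t, ht.1⟩)
    (by
      rw [Submodule.mem_comap]
      change (Pi.single (M := fun _ => H.gr (R.obj S) (2 * r)) 0 ⟨t, ht.1⟩ 0 -
        Pi.single (M := fun _ => H.gr (R.obj S) (2 * r)) 0 ⟨t, ht.1⟩ 1) ∉ algSub H (R.obj S) r
      rw [Pi.single_eq_same, Pi.single_eq_of_ne one_ne_zero, sub_zero]
      exact hne)
    (κ := (κ : K)) (by exact_mod_cast h.hκ)
    (fun m => by
      rw [Submodule.mem_comap]
      change ((ps H h.dimV h.dimS (p 0 m) r (pl H (p 0 m) r ⟨t, ht.1⟩) - (κ : K) •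
          Pi.single (M := fun _ => H.gr (R.obj S) (2 * r)) 0 ⟨t, ht.1⟩ 0) -
        (ps H h.dimV h.dimS (p 1 m) r (pl H (p 0 m) r ⟨t, ht.1⟩) - (κ : K) •
          Pi.single (M := fun _ => H.gr (R.obj S) (2 * r)) 0 ⟨t, ht.1⟩ 1)) ∈ algSub H (R.obj S) r
      rw [Pi.single_eq_same, Pi.single_eq_of_ne one_ne_zero, smul_zero, sub_zero,
        h.push_pull 0 m.2, sub_self, zero_sub]
      apply Submodule.neg_mem
      exact h.push_pull_ne m.2 m.2 (fun e => zero_ne_one (congrArg Prod.fst e)) _)
    (fun m m' hmm => by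
      rw [Submodule.mem_comap]
      change (ps H h.dimV h.dimS (p 0 m) r (pl H (p 0 m') r ⟨t, ht.1⟩) -
        ps H h.dimV h.dimS (p 1 m) r (pl H (p 0 m') r ⟨t, ht.1⟩)) ∈ algSub H (R.obj S) r
      apply Submodule.sub_mem
      · exact h.push_pull_ne m'.2 m.2 (fun e => hmm (Fin.ext (congrArg Prod.snd e).symm)) _
      · exact h.push_pull_ne m'.2 m.2 (fun e => hmm (Fin.ext (congrArg Prod.snd e).symm)) _)
  exact absurd (hM ▸ key) (Nat.not_succ_le_self _)

omit hC hH in
theorem within_of_algebraic (h : TateConj R n r) : TateWithin R n r 0 := by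
  intro X _ hX
  refine ⟨Fin.elim0, fun l => l.elim0, fun t ht => ⟨0, Submodule.zero_mem _, 0,
    Submodule.zero_mem _, ?_⟩⟩
  rw [sub_zero, sub_zero]
  exact h X t hX ht

end main

end Pool.Agent.V1157.FD
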